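import Mathlib
import Pool.Agent.Helper223.QAlpha

set_option autoImplicit false

namespace Pool.Agent.Results.MP_1308e3_lc.LowOrder

/-- The halting set `∅'`: all `n` such that the `n`-th partial recursive function converges
on the input `n`. -/
def HaltingSet : Set ℕ := {n | ((Denumerable.ofNat Nat.Partrec.Code n).eval n).Dom}

open Classical in
/-- The characteristic function of a set of natural numbers, as a total function. -/
noncomputable def charFn (S : Set ℕ) : ℕ →. ℕ := fun n => Part.some (if n ∈ S then 1 else 0)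

/-- `S` is computably enumerable in the oracle `X`: it is the domain of a partial function
recursive in `X`. -/
def CeIn (X S : Set ℕ) : Prop :=
  ∃ f : ℕ →. ℕ, TuringReducible f (charFn X) ∧ ∀ n, n ∈ S ↔ (f n).Dom

/-- `X` is low, i.e. `X' ≤_T ∅'`. (The jump `X'` is c.e. in `X`, and every set c.e. in `X` is
many-one reducible to `X'`; so `X' ≤_T ∅'` says that every set c.e. in `X` is Turing reducible
to `∅'`.) -/
def Low (X : Set ℕ) : Prop :=
  ∀ S : Set ℕ, CeIn X S → TuringReducible (charFn S) (charFn HaltingSet)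

/-- The bijection `μ` of the set `D` of natural numbers with the ordered field `K` is a
computable presentation of `K`: the domain `D` is computable, and the addition, the
multiplication and the order are given on `D` by computable functions. -/
def ComputablePresentation (K : Type) [Field K] [LinearOrder K] (D : Set ℕ) (μ : D ≃ K) : Prop :=
  ComputablePred (fun n => n ∈ D) ∧
  (∃ add : ℕ → ℕ → ℕ, Computable₂ add ∧
    ∀ a b : D, ((μ.symm (μ a + μ b) : D) : ℕ) = add (a : ℕ) (b : ℕ)) ∧
  (∃ mul : ℕ → ℕ → ℕ, Computable₂ mul ∧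
    ∀ a b : D, ((μ.symm (μ a * μ b) : D) : ℕ) = mul (a : ℕ) (b : ℕ)) ∧
  (∃ lt : ℕ → ℕ → Bool, Computable₂ lt ∧ ∀ a b : D, (lt (a : ℕ) (b : ℕ) = true ↔ μ a < μ b))

open Pool.Agent.Helper223 in
theorem no_copy (K : Type) [Field K] [LinearOrder K] (φ : QA ≃+*o K) (D : Set ℕ) (μ : D ≃ K)
    (h : ComputablePresentation K D μ) : False := by
  obtain ⟨-, ⟨add, hadd, hadd'⟩, -, ⟨lt, hlt, hlt'⟩⟩ := h
  let c0 : ℕ := ((μ.symm 0 : D) : ℕ)
  let mu : ℕ → ℕ → ℕ := fun c n => Nat.rec (motive := fun _ => ℕ) c0 (fun _ r => add r c) n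
  have hmu : ∀ c : ℕ, Computable (mu c) := by
    intro c
    refine Computable.nat_rec (f := fun n => n) (g := fun _ => c0) (h := fun _ p => add p.2 c)
      Computable.id (Computable.const _) ?_
    exact hadd.comp (Computable.snd.comp Computable.snd) (Computable.const c)
  have hmuv : ∀ (d : D) (n : ℕ), mu (d : ℕ) n = ((μ.symm ((n : K) * μ d) : D) : ℕ) := by
    intro d n
    induction n with
    | zero => simp [mu, c0]
    | succ n ih =>
      have h1 : mu (d : ℕ) (n + 1) = add (mu (d : ℕ) n) (d : ℕ) := rfl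
      rw [h1, ih, ← hadd']
      congr 2
      rw [Equiv.apply_symm_apply]
      push_cast
      ring
  let x : K := φ ⟨alpha lowA, alpha_mem⟩
  let cx : D := μ.symm x
  let c1 : D := μ.symm 1
  apply lowA_not_computable
  refine decode_cut lowA (fun p q => ! (lt (mu (cx : ℕ) q) (mu (c1 : ℕ) p))) ?_ ?_
  · exact (Primrec.not.to_comp).comp (hlt.comp ((hmu _).comp Computable.snd)
      ((hmu _).comp Computable.fst))
  · intro p q
    rw [hmuv, hmuv, Bool.not_eq_true', ← Bool.not_eq_true, hlt', not_lt]
    rw [Equiv.apply_symm_apply, Equiv.apply_symm_apply, Equiv.apply_symm_apply,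
      Equiv.apply_symm_apply, mul_one]
    have h1 : (q : K) * x = φ ((q : QA) * ⟨alpha lowA, alpha_mem⟩) := by
      rw [map_mul, map_natCast]
    have h2 : (p : K) = φ (p : QA) := (map_natCast φ p).symm
    rw [h1, h2, map_le_map_iff]
    rw [← Subtype.coe_le_coe]
    push_cast
    rfl

open Pool.Agent.Helper223 in
theorem low_order (e : ℕ ≃ QA) (u : ℕ → N1) (hu : Computable u)
    (heu : ∀ n, ((e n : QA) : ℝ) = cQ (u n)) :
    Low {k : ℕ | e (Nat.unpair k).1 < e (Nat.unpair k).2} := by
  classical
  intro S hS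
  obtain ⟨f, hf, hfS⟩ := hS
  have hO : charFn {k : ℕ | e (Nat.unpair k).1 < e (Nat.unpair k).2} = fun k => Part.some
      (if cQ (u k.unpair.1) < cQ (u k.unpair.2) then 1 else 0) := by
    funext k
    unfold charFn
    congr 1
    have : (k ∈ {k : ℕ | e (Nat.unpair k).1 < e (Nat.unpair k).2}) ↔
        cQ (u k.unpair.1) < cQ (u k.unpair.2) := by
      rw [← heu, ← heu]
      exact Iff.rfl
    by_cases hc : cQ (u k.unpair.1) < cQ (u k.unpair.2)
    · rw [if_pos hc, if_pos (this.2 hc)]
    · rw [if_neg hc, if_neg (fun h => hc (this.1 h))]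
  rw [hO] at hf
  obtain ⟨g, hg, hlim⟩ := low_of_approx (oD u) (comp_oD u hu) (oD_mono u)
    (fun k => if cQ (u k.unpair.1) < cQ (u k.unpair.2) then 1 else 0)
    (fun k => by
      obtain ⟨n, hn⟩ := oD_lim u k
      refine ⟨n, ?_⟩
      rw [hn]) S ⟨f, hf, hfS⟩
  exact lim_reducible S g hg hlim

/-- There is a subfield `F` of the real numbers, presented on `ℕ` with computable field
operations, such that the ordering inherited from the real numbers is low in this presentation,
but no ordered field isomorphic to `F` has a presentation with computable domain, computable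
field operations and computable ordering. -/
theorem result : ∃ (F : Subfield ℝ) (ν : ℕ ≃ F),
    Computable₂ (fun a b : ℕ => ν.symm (ν a + ν b)) ∧
    Computable₂ (fun a b : ℕ => ν.symm (ν a * ν b)) ∧
    Low {k : ℕ | ν (Nat.unpair k).1 < ν (Nat.unpair k).2} ∧
    ∀ (K : Type) [Field K] [LinearOrder K], Nonempty (F ≃+*o K) →
      ∀ (D : Set ℕ) (μ : D ≃ K), ¬ ComputablePresentation K D μ := by
  obtain ⟨e, u, hu, heu, h1, h2, -, -⟩ := Pool.Agent.Helper223.QA_numbering
  refine ⟨Pool.Agent.Helper223.QA, e, h1, h2, low_order e u hu heu, ?_⟩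
  intro K _ _ hφ D μ hμ
  obtain ⟨φ⟩ := hφ
  exact no_copy K φ D μ hμ

end Pool.Agent.Results.MP_1308e3_lc.LowOrder
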